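import Pool.Agent.Q178.Functors.Cont

set_option autoImplicit false

/-!
A finitary skeletal normal functor which is not finitely square-skeletal.
-/

universe u

namespace Pool.Agent.Results.MP_2f5a6b_gt.NotSquareSkeletal

open CategoryTheory Set Topology Q178.Functors

instance finB : CompactSpace (ULift.{u} Bool × ULift.{u} Bool) := inferInstance

/-- The square of the two projections of the product of two two-point spaces. -/
def D : Square.{u} where
  tX := CompHaus.of (ULift.{u} Bool × ULift.{u} Bool)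
  tY := CompHaus.of (ULift.{u} Bool)
  X := CompHaus.of (ULift.{u} Bool)
  Y := CompHaus.of PUnit.{u + 1}
  tf := ConcreteCategory.ofHom (C := CompHaus.{u}) ⟨Prod.snd, continuous_snd⟩
  f := ConcreteCategory.ofHom (C := CompHaus.{u}) ⟨fun _ => PUnit.unit, continuous_const⟩
  pX := ConcreteCategory.ofHom (C := CompHaus.{u}) ⟨Prod.fst, continuous_fst⟩
  pY := ConcreteCategory.ofHom (C := CompHaus.{u}) ⟨fun _ => PUnit.unit, continuous_const⟩
  comm := rfl

lemma finite_D : D.{u}.FiniteSpaces := by
  refine ⟨?_, ?_, ?_, ?_⟩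
  · exact (inferInstance : Finite (ULift.{u} Bool × ULift.{u} Bool))
  · exact (inferInstance : Finite (ULift.{u} Bool))
  · exact (inferInstance : Finite (ULift.{u} Bool))
  · exact (inferInstance : Finite PUnit.{u + 1})

lemma surjections_D : D.{u}.Surjections := by
  refine ⟨fun x => ⟨(x, x), rfl⟩, fun _ => ⟨⟨true⟩, rfl⟩, fun x => ⟨(x, x), rfl⟩,
    fun _ => ⟨⟨true⟩, rfl⟩⟩

lemma skeletal_D : D.{u}.Skeletal := by
  intro x U hU
  have hx : x ∈ U := mem_of_mem_nhds hU
  refine ⟨univ, isOpen_univ, ⟨PUnit.unit, trivial⟩, fun y _ => ⟨x, hx, rfl⟩, ?_⟩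
  intro y _
  exact ⟨(x, y), hx, rfl⟩

lemma not_skeletal : ¬ (D.{u}.map Fun).Skeletal := by
  intro h
  -- the points of the two lower corners
  let a : ULift.{u} Bool := ⟨false⟩
  let b : ULift.{u} Bool := ⟨true⟩
  have hab : a ≠ b := by
    intro h
    exact absurd (congrArg ULift.down h) (by decide)
  let x : M (ULift.{u} Bool) := mk (a, b, true)
  let y : M (ULift.{u} Bool) := mk (a, b, false)
  have hfin : Finite (M (ULift.{u} Bool)) :=
    Finite.of_surjective (mk : _ → M (ULift.{u} Bool)) surjective_mk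
  have hdisc : DiscreteTopology (M (ULift.{u} Bool)) := inferInstance
  obtain ⟨V, _, ⟨v, hv⟩, hVU, hV⟩ := h x {x} (by
    have : ({x} : Set (M (ULift.{u} Bool))) ∈ 𝓝 x := (isOpen_discrete _).mem_nhds rfl
    exact this)
  -- the only point of the fourth corner
  have hsub : Subsingleton (M PUnit.{u + 1}) := by
    refine ⟨fun p q => ?_⟩
    obtain ⟨p, rfl⟩ := surjective_mk p
    obtain ⟨q, rfl⟩ := surjective_mk q
    rw [mk_eq_iff]
    exact Or.inr (Or.inr ⟨rfl, rfl, rfl⟩)
  have hy : y ∈ (D.{u}.map Fun).pY ⁻¹' V := by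
    have h1 : ((D.{u}.map Fun).pY : M (ULift.{u} Bool) → M PUnit.{u + 1}) y = v :=
      Subsingleton.elim (α := M PUnit.{u + 1}) _ _
    change ((D.{u}.map Fun).pY : M (ULift.{u} Bool) → M PUnit.{u + 1}) y ∈ V
    rw [h1]
    exact hv
  obtain ⟨z, hz, hzy⟩ := hV hy
  obtain ⟨⟨⟨p, q⟩, ⟨r, s⟩, t⟩, rfl⟩ := surjective_mk
    (X := ULift.{u} Bool × ULift.{u} Bool) z
  have h1 : (mk (p, r, t) : M (ULift.{u} Bool)) = mk (a, b, true) := hz
  have h2 : (mk (q, s, t) : M (ULift.{u} Bool)) = mk (a, b, false) := hzy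
  rw [mk_eq_iff] at h1 h2
  have ht : t = true := by
    rcases h1 with h1 | ⟨h1, _⟩ | ⟨_, h3, h4⟩
    · simp only [Prod.mk.injEq] at h1
      exact h1.2.2
    · exact h1
    · exact absurd (h3.trans h4.symm) hab
  rcases h2 with h2 | ⟨_, h2, _⟩ | ⟨_, h3, h4⟩
  · simp only [Prod.mk.injEq] at h2
    rw [ht] at h2
    exact absurd h2.2.2 (by decide)
  · exact absurd h2 (by decide)
  · exact absurd (h3.trans h4.symm) hab

/-- **Skeletal normal functors need not be square-skeletal.** There is a finitary, skeletal,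
normal functor in the category of compact Hausdorff spaces which is not finitely
square-skeletal; in particular it is not square-skeletal. -/
theorem result : ∃ F : CompHaus.{u} ⥤ CompHaus.{u}, IsNormal F ∧ IsFinitary F ∧
    IsSkeletalFunctor F ∧ ¬ IsFinitelySquareSkeletal F ∧ ¬ IsSquareSkeletal F :=
  ⟨Fun, fun_normal, fun_finitary, fun_skeletal,
    fun h => not_skeletal (h D finite_D surjections_D skeletal_D),
    fun h => not_skeletal (h D surjections_D skeletal_D)⟩

end Pool.Agent.Results.MP_2f5a6b_gt.NotSquareSkeletal
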